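import Mathlib
import Pool.Agent.H116.Bnr
import Pool.Agent.H116.BnrFamily

/-!
# `α_bnr - Γ_b` is unbounded on 2-connected graphs
-/

namespace Pool.Agent.Results.MP_20154b_co.TwoConnectedUnbounded

open SimpleGraph Pool.Agent.H116.Bnr

/-- 2-connected: at least three vertices, connected, no cut vertex. -/
def TwoConnected {V : Type} [Fintype V] (G : SimpleGraph V) : Prop :=
  3 ≤ Fintype.card V ∧ G.Connected ∧ ∀ x, (G.induce {x}ᶜ).Connected

/-- The example: every vertex of `GG k` is replaced by two adjacent twins. -/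
theorem example_two (k : ℕ) (hk : 0 < k) :
    TwoConnected (blow (GG k) 2) ∧ 3 * k ≤ alphaBnr (blow (GG k) 2) ∧
      Gammab (blow (GG k) 2) ≤ 2 * k + 20 := by
  have hc := GG_connected k hk
  refine ⟨⟨?_, blow_connected _ 2 hc (by norm_num), blow_no_cut _ 2 hc le_rfl⟩, ?_, ?_⟩
  · rw [Fintype.card_prod, Fintype.card_fin]
    have : 1 < Fintype.card (Vx k) := Fintype.one_lt_card
    omega
  · exact le_trans (alpha_lower k hk) (alpha_blow _ 2 hc (by norm_num))
  · exact le_trans (Gammab_blow _ 2 hc (by norm_num)) (gamma_upper k hk)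

/-- **Main result.**  On 2-connected graphs `α_bnr - Γ_b` is unbounded above, and the ratio
`α_bnr/Γ_b` exceeds `3/2 - ε` for every `ε > 0`; in particular `α_bnr ≤ Γ_b` fails. -/
theorem result :
    (∀ N : ℕ, ∃ (V : Type) (_ : Fintype V) (G : SimpleGraph V), TwoConnected G ∧
      Gammab G + N ≤ alphaBnr G) ∧
    (∀ ε : ℝ, 0 < ε → ∃ (V : Type) (_ : Fintype V) (G : SimpleGraph V), TwoConnected G ∧
      (3 / 2 - ε) * (Gammab G : ℝ) < (alphaBnr G : ℝ)) ∧
    ¬ (∀ (V : Type) (_ : Fintype V) (G : SimpleGraph V), TwoConnected G →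
      alphaBnr G ≤ Gammab G) := by
  have h1 : ∀ N : ℕ, ∃ (V : Type) (_ : Fintype V) (G : SimpleGraph V), TwoConnected G ∧
      Gammab G + N ≤ alphaBnr G := by
    intro N
    obtain ⟨a, b, c⟩ := example_two (N + 20) (by omega)
    exact ⟨_, inferInstance, _, a, by omega⟩
  refine ⟨h1, ?_, ?_⟩
  · intro ε hε
    obtain ⟨k, hk⟩ := exists_nat_gt (30 / ε)
    have hk1 : 30 < ε * k := by
      rw [div_lt_iff₀ hε] at hk
      linarith
    have hkpos : 0 < k := by
      rcases Nat.eq_zero_or_pos k with h | h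
      · subst h
        simp at hk1
        linarith
      · exact h
    obtain ⟨a, b, c⟩ := example_two k hkpos
    refine ⟨_, inferInstance, _, a, ?_⟩
    have hb : (3 * k : ℝ) ≤ alphaBnr (blow (GG k) 2) := by exact_mod_cast b
    have hc' : (Gammab (blow (GG k) 2) : ℝ) ≤ 2 * k + 20 := by exact_mod_cast c
    have hkR : (0 : ℝ) < k := by exact_mod_cast hkpos
    have hG0 : (0 : ℝ) ≤ Gammab (blow (GG k) 2) := Nat.cast_nonneg _
    by_cases hcase : 3 / 2 - ε ≤ 0
    · have : (3 / 2 - ε) * (Gammab (blow (GG k) 2) : ℝ) ≤ 0 :=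
        mul_nonpos_of_nonpos_of_nonneg hcase hG0
      linarith
    · push Not at hcase
      have : (3 / 2 - ε) * (Gammab (blow (GG k) 2) : ℝ) ≤ (3 / 2 - ε) * (2 * k + 20) :=
        mul_le_mul_of_nonneg_left hc' hcase.le
      nlinarith
  · intro hall
    obtain ⟨V, hV, G, hG, h2⟩ := h1 1
    have := hall V hV G hG
    omega

end Pool.Agent.Results.MP_20154b_co.TwoConnectedUnbounded
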